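import Pool.Agent.H18.TN.Tor
import Pool.Agent.H75.CX.Vp3
import Pool.Agent.H63.RK.Nil
import Pool.Agent.H63.RK.TFin
import Pool.Agent.H50.GN.ClsLN
import Pool.Agent.H38.AP.App

/-!
# Graphs of (locally finite)-by-`W` groups with locally virtually polycyclic edge groups

`wt_inj`: the class `WT W` is closed under subgroups. `wt_nil`: it contains the locally nilpotent groups if `W` contains the
torsion-free locally nilpotent groups. `vp_lf`: locally finite subgroups of virtually polycyclic groups are finite. `red`: reduction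
of locally virtually polycyclic edge stabilisers to virtually polycyclic ones (`Pool.Agent.H38.AP.fg_edges`).
-/

set_option autoImplicit false

namespace Pool.Agent.H18.TN

open Pool.Agent.H98.FJ Pool.Agent.H93.TR Pool.Agent.H76.GT Pool.Agent.H50.GN Pool.Agent.H63.RK Pool.Agent.H75.CX

theorem wt_inj {C W : (G : Type) → [Group G] → Prop} (hW : Cls C W) {A B : Type} [Group A] [Group B] (f : A →* B)
    (hf : Function.Injective f) (h : WT W B) : WT W A := by
  obtain ⟨F, hF, hl, hw⟩ := h
  have hn : (F.comap f).Normal := inferInstance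
  refine ⟨F.comap f, hn, ?_, ?_⟩
  · let φ : F.comap f →* F :=
      { toFun := fun x => ⟨f x.1, x.2⟩
        map_one' := Subtype.ext (map_one f)
        map_mul' := fun x y => Subtype.ext (map_mul f x.1 y.1) }
    refine lf_inj φ ?_ hl
    intro x y hxy
    exact Subtype.ext (hf (congrArg Subtype.val hxy))
  · refine hW.inj (A ⧸ F.comap f) (B ⧸ F) (QuotientGroup.map (F.comap f) F f le_rfl) ?_ hw
    rw [injective_iff_map_eq_one]
    intro x hx
    obtain ⟨a, rfl⟩ := QuotientGroup.mk_surjective x
    rw [QuotientGroup.map_mk] at hx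
    exact (QuotientGroup.eq_one_iff a).2 (show f a ∈ F from (QuotientGroup.eq_one_iff (N := F) (f a)).1 hx)

theorem vp_lf {A : Type} [Group A] (h : VP A) (D : Subgroup A) (hD : LocFin D) : Finite D := by
  classical
  obtain ⟨M, hM⟩ := fin_bd h
  by_contra hinf
  have hi : Infinite D := not_finite_iff_infinite.1 hinf
  obtain ⟨s, hs⟩ := Infinite.exists_subset_card_eq D (M + 1)
  have hf : Finite (Subgroup.closure (s : Set D)) := hD _ ⟨s, rfl⟩
  have h1 : Finite ((Subgroup.closure (s : Set D)).map D.subtype) := by
    refine Finite.of_surjective (fun x : Subgroup.closure (s : Set D) =>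
      (⟨(x.1 : A), Subgroup.mem_map_of_mem D.subtype x.2⟩ : (Subgroup.closure (s : Set D)).map D.subtype)) ?_
    rintro ⟨_, x, hx, rfl⟩
    exact ⟨⟨x, hx⟩, rfl⟩
  have h2 := hM _ h1
  have h3 : Nat.card (Subgroup.closure (s : Set D)) ≤ Nat.card ((Subgroup.closure (s : Set D)).map D.subtype) := by
    refine Nat.card_le_card_of_injective (fun x : Subgroup.closure (s : Set D) =>
      (⟨(x.1 : A), Subgroup.mem_map_of_mem D.subtype x.2⟩ : (Subgroup.closure (s : Set D)).map D.subtype)) ?_
    intro x y hxy
    have h4 : ((x.1 : D) : A) = (y.1 : D) := congrArg (fun t : (Subgroup.closure (s : Set D)).map D.subtype => (t : A)) hxy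
    exact Subtype.ext (Subtype.ext h4)
  have h4 : s.card ≤ Nat.card (Subgroup.closure (s : Set D)) := by
    have h5 := Nat.card_le_card_of_injective (fun x : s => (⟨x.1, Subgroup.subset_closure x.2⟩ : Subgroup.closure (s : Set D)))
      (by
        intro x y hxy
        exact Subtype.ext (congrArg (fun t : Subgroup.closure (s : Set D) => (t : D)) hxy))
    rwa [Nat.card_eq_fintype_card, Fintype.card_coe] at h5
  omega

/-- locally nilpotent groups -/
theorem wt_nil {W : (G : Type) → [Group G] → Prop} (hN : ∀ (G : Type) [Group G], WN G → W G) {H : Type} [Group H]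
    (h : LocNil H) : WT W H := by
  classical
  have hpair : ∀ x y : H, IsOfFinOrder x → IsOfFinOrder y → ∀ z ∈ Subgroup.closure (({x, y} : Finset H) : Set H), IsOfFinOrder z := by
    intro x y hx hy z hz
    have hn := h (Subgroup.closure (({x, y} : Finset H) : Set H)) ⟨_, rfl⟩
    have hxm : x ∈ Subgroup.closure (({x, y} : Finset H) : Set H) := Subgroup.subset_closure (by simp)
    have hym : y ∈ Subgroup.closure (({x, y} : Finset H) : Set H) := Subgroup.subset_closure (by simp)
    obtain ⟨a, ha, hxa⟩ := isOfFinOrder_iff_pow_eq_one.1 hx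
    obtain ⟨b, hb, hyb⟩ := isOfFinOrder_iff_pow_eq_one.1 hy
    obtain ⟨k, hk, h1⟩ := tors_of_gen hn ({⟨x, hxm⟩, ⟨y, hym⟩} : Set _) (by
        have h2 := Subgroup.closure_closure_coe_preimage (k := (({x, y} : Finset H) : Set H))
        rw [← h2]
        congr 1
        ext t
        simp only [Set.mem_insert_iff, Set.mem_singleton_iff, Set.mem_preimage, Finset.coe_insert, Finset.coe_singleton]
        constructor
        · rintro (rfl | rfl)
          · exact Or.inl rfl
          · exact Or.inr rfl
        · rintro (h | h)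
          · exact Or.inl (Subtype.ext h)
          · exact Or.inr (Subtype.ext h)) (by
        rintro t (rfl | rfl)
        · exact ⟨a, ha.ne', Subtype.ext hxa⟩
        · exact ⟨b, hb.ne', Subtype.ext hyb⟩) ⟨z, hz⟩
    exact isOfFinOrder_iff_pow_eq_one.2 ⟨k, Nat.pos_of_ne_zero hk, congrArg Subtype.val h1⟩
  let F : Subgroup H :=
    { carrier := {x | IsOfFinOrder x}
      one_mem' := IsOfFinOrder.one
      mul_mem' := by
        intro x y hx hy
        refine hpair x y hx hy _ (Subgroup.mul_mem _ ?_ ?_)
        · exact Subgroup.subset_closure (by simp)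
        · exact Subgroup.subset_closure (by simp)
      inv_mem' := by
        intro x hx
        exact hx.inv }
  have hF : F.Normal := by
    refine ⟨fun x hx g => ?_⟩
    obtain ⟨n, hn, h1⟩ := isOfFinOrder_iff_pow_eq_one.1 (show IsOfFinOrder x from hx)
    exact isOfFinOrder_iff_pow_eq_one.2 ⟨n, hn, by rw [conj_pow, h1, mul_one, mul_inv_cancel]⟩
  refine ⟨F, hF, ?_, hN _ ⟨?_, ?_⟩⟩
  · intro K hK
    have h1 : Group.FG K := (Group.fg_iff_subgroup_fg K).2 hK
    let e : K ≃* K.map F.subtype := K.equivMapOfInjective F.subtype (Subgroup.subtype_injective _)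
    have h2 : Group.FG (K.map F.subtype) := Group.fg_of_surjective (f := e.toMonoidHom) e.surjective
    have h3 := h _ ((Group.fg_iff_subgroup_fg _).1 h2)
    have h4 : Group.IsNilpotent K := Group.nilpotent_of_mulEquiv e.symm
    refine finite_of_torsion h4 h1 ?_
    intro x
    obtain ⟨n, hn, h5⟩ := isOfFinOrder_iff_pow_eq_one.1 (show IsOfFinOrder ((x.1 : F) : H) from x.1.2)
    exact ⟨n, hn.ne', Subtype.ext (Subtype.ext h5)⟩
  · intro x k hk hx
    obtain ⟨a, rfl⟩ := QuotientGroup.mk_surjective x
    rw [← QuotientGroup.mk_pow, QuotientGroup.eq_one_iff] at hx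
    rw [QuotientGroup.eq_one_iff]
    obtain ⟨n, hn, h5⟩ := isOfFinOrder_iff_pow_eq_one.1 (show IsOfFinOrder (a ^ k) from hx)
    rw [← pow_mul] at h5
    exact isOfFinOrder_iff_pow_eq_one.2 ⟨k * n, Nat.mul_pos (Nat.pos_of_ne_zero hk) hn, h5⟩
  · exact LocNil.of_surj (QuotientGroup.mk' F) h (QuotientGroup.mk'_surjective F)

/-- every finitely generated subgroup is virtually polycyclic -/
def LVP (A : Type) [Group A] : Prop := ∀ H : Subgroup A, H.FG → VP H

theorem lvp_fg {A : Type} [Group A] (h : LVP A) (hA : Group.FG A) : VP A := by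
  have h1 : (⊤ : Subgroup A).FG := Group.fg_def.1 hA
  exact vp_inj (Subgroup.topEquiv (G := A)).symm.toMonoidHom (Subgroup.topEquiv (G := A)).symm.injective (h _ h1)

theorem lvp_inj {A B : Type} [Group A] [Group B] (f : A →* B) (hf : Function.Injective f) (h : LVP B) : LVP A := by
  intro H hH
  have h1 : Group.FG H := (Group.fg_iff_subgroup_fg H).2 hH
  let e : H ≃* H.map f := H.equivMapOfInjective f hf
  have h2 : Group.FG (H.map f) := Group.fg_of_surjective (f := e.toMonoidHom) e.surjective
  exact vp_inj e.toMonoidHom e.injective (h _ ((Group.fg_iff_subgroup_fg _).1 h2))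

/-- **graphs of groups**, from the case of torsion-free vertex stabilisers and virtually polycyclic edge stabilisers -/
theorem graphs_of {C W : (G : Type) → [Group G] → Prop} (hC : Inherits C) (hE : Extension C) (hT : Transfer C) (hW : Cls C W)
    (hgn : ∀ (G V : Type) [Group G] [MulAction G V] (X : SimpleGraph V), OnTree G X → (∀ v : V, W (MulAction.stabilizer G v)) →
      (∀ v w : V, X.Adj v w → VP (MulAction.stabilizer G v ⊓ MulAction.stabilizer G w : Subgroup G)) → C G)
    {G V : Type} [Group G] [MulAction G V] {X : SimpleGraph V} (hX : OnTree G X)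
    (hv : ∀ v : V, WT W (MulAction.stabilizer G v))
    (he : ∀ v w : V, X.Adj v w → LVP (MulAction.stabilizer G v ⊓ MulAction.stabilizer G w : Subgroup G)) : C G := by
  obtain ⟨H, hH, hinv⟩ := exists_noInv hX
  refine hC.index G H hH ?_
  have hXH : OnTree H X := ⟨hX.tree, fun g v w h => hX.adj (g : G) v w h⟩
  refine Pool.Agent.H38.AP.fg_edges hC hXH ?_ ?_
  · rintro ⟨n, hn⟩ _ v w h1 h2 h3
    exact hinv n hn v w h1 h2 h3
  · intro M T _ _ Y hY _ hs1 hs2
    refine gnt_of hC hE hT hW VP (fun A B _ _ f hf h => vp_surj f hf h) (fun A _ h D hD => vp_lf h D hD) hgn hY ?_ ?_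
    · intro t
      obtain ⟨x, f, hf⟩ := hs1 t
      let ψ : MulAction.stabilizer H x →* MulAction.stabilizer G x :=
        { toFun := fun h => ⟨(h.1 : G), h.2⟩
          map_one' := rfl
          map_mul' := fun _ _ => rfl }
      refine wt_inj hW (ψ.comp f) ?_ (hv x)
      intro a b hab
      apply hf
      exact Subtype.ext (Subtype.ext (congrArg (fun z : MulAction.stabilizer G x => (z : G)) hab))
    · intro s t hst
      obtain ⟨hfg, x, y, hxy, f, hf⟩ := hs2 s t hst
      let ψ : (MulAction.stabilizer H x ⊓ MulAction.stabilizer H y : Subgroup H) →*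
          (MulAction.stabilizer G x ⊓ MulAction.stabilizer G y : Subgroup G) :=
        { toFun := fun h => ⟨(h.1 : G), h.2.1, h.2.2⟩
          map_one' := rfl
          map_mul' := fun _ _ => rfl }
      refine lvp_fg (lvp_inj (ψ.comp f) ?_ (he x y hxy)) hfg
      intro a b hab
      apply hf
      exact Subtype.ext (Subtype.ext (congrArg
        (fun z : (MulAction.stabilizer G x ⊓ MulAction.stabilizer G y : Subgroup G) => (z : G)) hab))

end Pool.Agent.H18.TN
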