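import Pool.Agent.H54.GC.Tm
import Pool.Agent.H54.GC.Loc

/-!
# Extensions by groups acting on a tree with finite edge stabilisers

`fin_ext`: let `G` act on a tree with vertex stabilisers in `C`, `f : G → Q` surjective, `Q` in `C`; if the kernel of `f` meets the
edge stabilisers in finite groups then `G` is in `C`. Proof. By `Extension` we may assume that `f` maps to a cyclic group. The edge
stabilisers are finite-by-cyclic. Let `c` be an element of infinite order which fixes an edge; `f c` has infinite order. If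
`g c ^ m g⁻¹ = c ^ n` then `m = n` (the image is commutative), so the finitely generated subgroups of the commensurator of `c` centralise a
power `z` of `c`. The centraliser of `z` contains `K × ⟨z⟩` with finite index, `K` its intersection with the kernel, which acts with
finite edge stabilisers.
-/

set_option autoImplicit false

namespace Pool.Agent.H18.TN

open Pool.Agent.H98.FJ Pool.Agent.H93.TR Pool.Agent.H76.GT Pool.Agent.H54.GC
open Subgroup.Commensurable (commensurator)

variable {C : (G : Type) → [Group G] → Prop}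

/-- finite-by-cyclic groups are virtually cyclic -/
theorem vc_of_ker {E Z : Type} [Group E] [Group Z] (f : E →* Z) (q : Z) (hq : ∀ x, f x ∈ Subgroup.zpowers q)
    (hk : Finite f.ker) : VirtuallyCyclic E := by
  have hcyc : IsCyclic f.range := by
    refine isCyclic_of_injective (G' := Subgroup.zpowers q)
      (Subgroup.inclusion (show f.range ≤ Subgroup.zpowers q by rintro _ ⟨x, rfl⟩; exact hq x)) (Subgroup.inclusion_injective _)
  obtain ⟨⟨_, e, rfl⟩, he⟩ := IsCyclic.exists_generator (α := f.range)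
  refine ⟨e, ?_⟩
  have hs : Function.Surjective (fun k : f.ker => ((k : E) : E ⧸ Subgroup.zpowers e)) := by
    intro y
    obtain ⟨x, rfl⟩ := QuotientGroup.mk_surjective y
    obtain ⟨n, hn⟩ := Subgroup.mem_zpowers_iff.1 (he ⟨f x, x, rfl⟩)
    have hn' : f e ^ n = f x := congrArg Subtype.val hn
    refine ⟨⟨x * e ^ (-n), ?_⟩, ?_⟩
    · rw [MonoidHom.mem_ker, map_mul, map_zpow, zpow_neg, hn', mul_inv_cancel]
    · rw [QuotientGroup.eq]
      refine ⟨n, ?_⟩
      show e ^ n = (x * e ^ (-n))⁻¹ * x
      rw [mul_inv_rev, zpow_neg, inv_inv, mul_assoc, inv_mul_cancel, mul_one]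
  have hf : Finite (E ⧸ Subgroup.zpowers e) := Finite.of_surjective _ hs
  exact Subgroup.finiteIndex_of_finite_quotient

section

variable {G V Z : Type} [Group G] [MulAction G V] [Group Z] {X : SimpleGraph V}

/-- the centraliser of an element whose image in a cyclic group has infinite order -/
private theorem cen_case (hC : Inherits C) (hT : Transfer C) (hX : OnTree G X)
    (hv : ∀ v : V, C (MulAction.stabilizer G v)) (f : G →* Z) (q : Z) (hq : ∀ x, f x ∈ Subgroup.zpowers q)
    (hfin : ∀ v w : V, X.Adj v w → Finite (f.ker ⊓ (MulAction.stabilizer G v ⊓ MulAction.stabilizer G w) : Subgroup G))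
    (z : G) (hz : ¬ IsOfFinOrder (f z)) : C (Subgroup.centralizer ({z} : Set G)) := by
  obtain ⟨Z0, hZ0⟩ : ∃ Z0 : Subgroup G, Z0 = Subgroup.centralizer ({z} : Set G) := ⟨_, rfl⟩
  rw [← hZ0]
  have hmem : ∀ x, x ∈ Z0 ↔ z * x = x * z := by
    intro x
    rw [hZ0, Subgroup.mem_centralizer_singleton_iff]
    exact eq_comm
  have hzZ : z ∈ Z0 := (hmem z).2 rfl
  have hK0 : C (f.ker ⊓ Z0 : Subgroup G) := by
    refine tree_finite hC hT (G := (f.ker ⊓ Z0 : Subgroup G)) hX.tree (fun g a b h => hX.adj (g : G) a b h) ?_ ?_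
    · intro v
      let φ : MulAction.stabilizer (f.ker ⊓ Z0 : Subgroup G) v →* MulAction.stabilizer G v :=
        { toFun := fun g => ⟨(g.1 : G), g.2⟩
          map_one' := rfl
          map_mul' := fun _ _ => rfl }
      refine hC.of_injective φ ?_ (hv v)
      intro a b hab
      exact Subtype.ext (Subtype.ext (congrArg (fun t : MulAction.stabilizer G v => (t : G)) hab))
    · intro a b hab
      have := hfin a b hab
      refine Finite.of_injective (fun k : (MulAction.stabilizer (f.ker ⊓ Z0 : Subgroup G) a ⊓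
        MulAction.stabilizer (f.ker ⊓ Z0 : Subgroup G) b : Subgroup (f.ker ⊓ Z0 : Subgroup G)) =>
        (⟨(k.1 : G), k.1.2.1, k.2.1, k.2.2⟩ :
          (f.ker ⊓ (MulAction.stabilizer G a ⊓ MulAction.stabilizer G b) : Subgroup G))) ?_
      intro x y hxy
      have h1 : (x.1 : G) = (y.1 : G) := congrArg
        (fun t : (f.ker ⊓ (MulAction.stabilizer G a ⊓ MulAction.stabilizer G b) : Subgroup G) => (t : G)) hxy
      exact Subtype.ext (Subtype.ext h1)
  let i1 : (f.ker ⊓ Z0 : Subgroup G) →* Z0 := Subgroup.inclusion inf_le_right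
  let i2 : Multiplicative ℤ →* Z0 := zpowersHom Z0 ⟨z, hzZ⟩
  have hi2 : ∀ n : Multiplicative ℤ, ((i2 n : Z0) : G) = z ^ (Multiplicative.toAdd n) := fun n => rfl
  have hcom : ∀ (k : (f.ker ⊓ Z0 : Subgroup G)) (n : Multiplicative ℤ), Commute (i1 k) (i2 n) := by
    intro k n
    have h1 : Commute z (k : G) := (hmem _).1 k.2.2
    exact Subtype.ext ((h1.zpow_left (Multiplicative.toAdd n)).symm.eq)
  let μ : (f.ker ⊓ Z0 : Subgroup G) × Multiplicative ℤ →* Z0 := MonoidHom.noncommCoprod i1 i2 hcom
  have hμ : ∀ x, ((μ x : Z0) : G) = (x.1 : G) * z ^ (Multiplicative.toAdd x.2) := fun x => rfl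
  have hfz : ∀ n : ℤ, f z ^ n = 1 → n = 0 := fun n hn => Pool.Agent.H76.VC.not_fin_pow hz hn
  have hinj : Function.Injective μ := by
    rw [injective_iff_map_eq_one]
    rintro ⟨k, n⟩ h
    have h1 : (k : G) * z ^ (Multiplicative.toAdd n) = 1 := by
      rw [← hμ (k, n), h]
      rfl
    have h2 : f z ^ (Multiplicative.toAdd n) = 1 := by
      have h3 := congrArg f h1
      rwa [map_mul, map_zpow, map_one, (MonoidHom.mem_ker).1 k.2.1, one_mul] at h3
    have h3 := hfz _ h2
    rw [h3, zpow_zero, mul_one] at h1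
    have h4 : k = 1 := Subtype.ext h1
    have h5 : n = 1 := by
      apply Multiplicative.toAdd.injective
      rw [h3]
      rfl
    rw [h4, h5]
    rfl
  have hD : C μ.range :=
    hC.iso _ _ (MonoidHom.ofInjective hinj) (Pool.Agent.H76.VC.prod_mem hC hK0 hC.int)
  refine hC.index Z0 μ.range ?_ hD
  have hre : μ.range = (Subgroup.zpowers (f z)).comap (f.comp Z0.subtype) := by
    ext x
    rw [Subgroup.mem_comap]
    constructor
    · rintro ⟨y, rfl⟩
      refine ⟨Multiplicative.toAdd y.2, ?_⟩
      show f z ^ (Multiplicative.toAdd y.2) = f ((μ y : Z0) : G)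
      rw [hμ, map_mul, map_zpow, (MonoidHom.mem_ker).1 y.1.2.1, one_mul]
    · rintro ⟨n, hn⟩
      have hn' : f z ^ n = f (x : G) := hn
      have hx : (x : G) * z ^ (-n) ∈ (f.ker ⊓ Z0 : Subgroup G) := by
        refine ⟨?_, Z0.mul_mem x.2 (Z0.zpow_mem hzZ _)⟩
        show f ((x : G) * z ^ (-n)) = 1
        rw [map_mul, map_zpow, zpow_neg, hn', mul_inv_cancel]
      refine ⟨(⟨_, hx⟩, Multiplicative.ofAdd n), Subtype.ext ?_⟩
      rw [hμ]
      show (x : G) * z ^ (-n) * z ^ n = x
      rw [zpow_neg, inv_mul_cancel_right]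
  rw [hre]
  constructor
  rw [Subgroup.index_comap]
  obtain ⟨s, hs⟩ := Subgroup.mem_zpowers_iff.1 (hq z)
  have hs0 : s ≠ 0 := by
    rintro rfl
    rw [zpow_zero] at hs
    exact hz (hs ▸ IsOfFinOrder.one)
  have h1 := index_zpowers_zpow q hs0
  rw [hs] at h1
  intro h0
  refine h1 (Subgroup.relIndex_eq_zero_of_le_right ?_ h0)
  rintro _ ⟨x, rfl⟩
  exact hq _

/-- the case of a cyclic quotient -/
theorem cyc_case (hC : Inherits C) (hT : Transfer C) (hX : OnTree G X)
    (hv : ∀ v : V, C (MulAction.stabilizer G v)) (f : G →* Z) (q : Z) (hq : ∀ x, f x ∈ Subgroup.zpowers q)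
    (hfin : ∀ v w : V, X.Adj v w → Finite (f.ker ⊓ (MulAction.stabilizer G v ⊓ MulAction.stabilizer G w) : Subgroup G)) :
    C G := by
  classical
  refine tree_main hC hT hX.tree hX.adj hv ?_ ?_
  · intro a b hab
    refine vc_of_ker (f.comp (Subgroup.subtype _)) q (fun x => hq _) ?_
    have := hfin a b hab
    refine Finite.of_injective (fun k : (f.comp (Subgroup.subtype
      (MulAction.stabilizer G a ⊓ MulAction.stabilizer G b))).ker =>
      (⟨(k.1 : G), k.2, k.1.2⟩ : (f.ker ⊓ (MulAction.stabilizer G a ⊓ MulAction.stabilizer G b) : Subgroup G))) ?_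
    intro x y hxy
    have h1 : (x.1 : G) = (y.1 : G) := congrArg
      (fun t : (f.ker ⊓ (MulAction.stabilizer G a ⊓ MulAction.stabilizer G b) : Subgroup G) => (t : G)) hxy
    exact Subtype.ext (Subtype.ext h1)
  · intro c hc a b hab ha hb
    have hfc : ¬ IsOfFinOrder (f c) := by
      intro h
      obtain ⟨n, hn, h1⟩ := isOfFinOrder_iff_pow_eq_one.1 h
      have := hfin a b hab
      have h2 : c ^ n ∈ (f.ker ⊓ (MulAction.stabilizer G a ⊓ MulAction.stabilizer G b) : Subgroup G) := by
        refine ⟨?_, (MulAction.stabilizer G a).pow_mem ha n, (MulAction.stabilizer G b).pow_mem hb n⟩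
        show f (c ^ n) = 1
        rw [map_pow, h1]
      have h3 := isOfFinOrder_of_finite (⟨c ^ n, h2⟩ :
        (f.ker ⊓ (MulAction.stabilizer G a ⊓ MulAction.stabilizer G b) : Subgroup G))
      obtain ⟨m, hm, h4⟩ := isOfFinOrder_iff_pow_eq_one.1 h3
      have h5 : (c ^ n) ^ m = 1 := congrArg Subtype.val h4
      rw [← pow_mul] at h5
      exact hc (isOfFinOrder_iff_pow_eq_one.2 ⟨n * m, Nat.mul_pos hn hm, h5⟩)
    have hqc : ∀ x y : G, f x * f y = f y * f x := by
      intro x y
      obtain ⟨i, hi⟩ := Subgroup.mem_zpowers_iff.1 (hq x)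
      obtain ⟨j, hj⟩ := Subgroup.mem_zpowers_iff.1 (hq y)
      rw [← hi, ← hj, ← zpow_add, ← zpow_add, add_comm]
    have hcm : ∀ g : G, g ∈ commensurator (Subgroup.zpowers c) → ∃ m : ℤ, m ≠ 0 ∧ g * c ^ m * g⁻¹ = c ^ m := by
      intro g hg
      obtain ⟨m, n, hm, hn, h1⟩ := (mem_comm hc g).1 hg
      have h2 : f c ^ m = f c ^ n := by
        have h3 := congrArg f h1
        rw [map_mul, map_mul, map_inv, hqc, map_zpow, map_zpow, mul_inv_cancel_right] at h3
        exact h3
      have h3 : m = n := by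
        by_contra hne
        apply sub_ne_zero.2 hne
        apply Pool.Agent.H76.VC.not_fin_pow hfc
        rw [zpow_sub, h2, mul_inv_cancel]
      exact ⟨m, hm, by rw [h1, h3]⟩
    refine Pool.Agent.H76.VC.of_fg hC _ ?_
    rintro M ⟨S, hS⟩
    have hex : ∃ m : ℤ, m ≠ 0 ∧ ∀ g ∈ S, (g : G) * c ^ m * (g : G)⁻¹ = c ^ m := by
      clear hS
      induction S using Finset.induction with
      | empty => exact ⟨1, one_ne_zero, fun g hg => absurd hg (Finset.notMem_empty g)⟩
      | insert g S hg ih =>
        obtain ⟨m, hm, h1⟩ := ih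
        obtain ⟨n, hn, h2⟩ := hcm g g.2
        refine ⟨m * n, mul_ne_zero hm hn, fun x hx => ?_⟩
        rcases Finset.mem_insert.1 hx with rfl | hx
        · rw [mul_comm m n, zpow_mul, ← conj_zpow, h2]
        · rw [zpow_mul, ← conj_zpow, h1 x hx]
    obtain ⟨m, hm, h1⟩ := hex
    have hz : ¬ IsOfFinOrder (f (c ^ m)) := by
      rw [map_zpow]
      exact Pool.Agent.H76.VC.not_fin_zpow hfc hm
    have hle : ∀ g ∈ M, (g : G) ∈ Subgroup.centralizer ({c ^ m} : Set G) := by
      have h2 : M ≤ (Subgroup.centralizer ({c ^ m} : Set G)).comap (Subgroup.subtype _) := by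
        rw [← hS, Subgroup.closure_le]
        intro g hg
        show (g : G) ∈ Subgroup.centralizer ({c ^ m} : Set G)
        rw [Subgroup.mem_centralizer_singleton_iff]
        exact mul_inv_eq_iff_eq_mul.1 (h1 g hg)
      intro g hg
      exact h2 hg
    let φ : M →* Subgroup.centralizer ({c ^ m} : Set G) :=
      { toFun := fun g => ⟨(g.1 : G), hle g.1 g.2⟩
        map_one' := rfl
        map_mul' := fun _ _ => rfl }
    refine hC.of_injective φ ?_ (cen_case hC hT hX hv f q hq hfin (c ^ m) hz)
    intro x y hxy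
    exact Subtype.ext (Subtype.ext (congrArg
      (fun t : Subgroup.centralizer ({c ^ m} : Set G) => (t : G)) hxy))

/-- **extensions**: the kernel meets the edge stabilisers in finite groups -/
theorem fin_ext (hC : Inherits C) (hE : Extension C) (hT : Transfer C) (hX : OnTree G X)
    (hv : ∀ v : V, C (MulAction.stabilizer G v)) (hZ : C Z) (f : G →* Z) (hf : Function.Surjective f)
    (hfin : ∀ v w : V, X.Adj v w → Finite (f.ker ⊓ (MulAction.stabilizer G v ⊓ MulAction.stabilizer G w) : Subgroup G)) :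
    C G := by
  refine hE G Z f hf hZ fun W hW => ?_
  obtain ⟨w, hw⟩ := hW
  let f' : W.comap f →* W := f.subgroupComap W
  refine hC.index _ ((Subgroup.zpowers w).comap f') (Pool.Agent.H76.VC.finiteIndex_comap' f' _ hw) ?_
  let Γ : Subgroup G := (Subgroup.zpowers (w : Z)).comap f
  have hΓ : C Γ := by
    refine cyc_case hC hT (G := Γ) (V := V) (X := X) ⟨hX.tree, fun g a b h => hX.adj (g : G) a b h⟩ ?_
      (f.comp Γ.subtype) (w : Z) (fun x => x.2) ?_
    · intro v
      let φ : MulAction.stabilizer Γ v →* MulAction.stabilizer G v :=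
        { toFun := fun g => ⟨(g.1 : G), g.2⟩
          map_one' := rfl
          map_mul' := fun _ _ => rfl }
      refine hC.of_injective φ ?_ (hv v)
      intro a b hab
      exact Subtype.ext (Subtype.ext (congrArg (fun t : MulAction.stabilizer G v => (t : G)) hab))
    · intro a b hab
      have := hfin a b hab
      refine Finite.of_injective (fun k : ((f.comp Γ.subtype).ker ⊓ (MulAction.stabilizer Γ a ⊓
        MulAction.stabilizer Γ b) : Subgroup Γ) =>
        (⟨(k.1 : G), k.2.1, k.2.2.1, k.2.2.2⟩ :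
          (f.ker ⊓ (MulAction.stabilizer G a ⊓ MulAction.stabilizer G b) : Subgroup G))) ?_
      intro x y hxy
      have h1 : (x.1 : G) = (y.1 : G) := congrArg
        (fun t : (f.ker ⊓ (MulAction.stabilizer G a ⊓ MulAction.stabilizer G b) : Subgroup G) => (t : G)) hxy
      exact Subtype.ext (Subtype.ext h1)
  let φ : (Subgroup.zpowers w).comap f' →* Γ :=
    { toFun := fun g => ⟨(g.1 : G), by
        obtain ⟨n, hn⟩ := g.2
        exact ⟨n, congrArg Subtype.val hn⟩⟩
      map_one' := rfl
      map_mul' := fun _ _ => rfl }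
  refine hC.of_injective φ ?_ hΓ
  intro x y hxy
  exact Subtype.ext (Subtype.ext (congrArg (fun t : Γ => (t : G)) hxy))

end

end Pool.Agent.H18.TN
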