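import Pool.Agent.H18.TN.FinExt
import Pool.Agent.H50.GN.Stb
import Pool.Agent.H50.GN.Lift
import Pool.Agent.H63.RK.LFX

/-!
# Locally finite normal subgroups in the vertex stabilisers

`WT W`: (locally finite)-by-`W` groups, `W` a class of torsion-free groups. `gnt_of`: if the groups acting on trees with vertex
stabilisers in `W` and edge stabilisers with the property `P` are in `C`, then this is true for `WT W` in place of `W`; `P` is a property
which passes to quotients and for which locally finite subgroups are finite. Proof. The elements of finite order in the stabilisers are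
a saturated family; the quotient by the subgroup `N` which they generate acts on the quotient tree with stabilisers in `W`, and `N` meets
the edge stabilisers in finite groups: `fin_ext`.
-/

set_option autoImplicit false

namespace Pool.Agent.H18.TN

open Pool.Agent.H98.FJ Pool.Agent.H93.TR Pool.Agent.H76.GT Pool.Agent.H50.GN Pool.Agent.H63.RK

/-- locally finite-by-`W` groups -/
def WT (W : (G : Type) → [Group G] → Prop) (H : Type) [Group H] : Prop :=
  ∃ (F : Subgroup H) (_ : F.Normal), LocFin F ∧ W (H ⧸ F)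

theorem lf_inj {A B : Type} [Group A] [Group B] (f : A →* B) (hf : Function.Injective f) (h : LocFin B) : LocFin A := by
  intro H hH
  have h1 : Group.FG H := (Group.fg_iff_subgroup_fg H).2 hH
  let e : H ≃* H.map f := H.equivMapOfInjective f hf
  have h2 : Group.FG (H.map f) := Group.fg_of_surjective (f := e.toMonoidHom) e.surjective
  have h3 : Finite (H.map f) := h _ ((Group.fg_iff_subgroup_fg _).1 h2)
  exact Finite.of_injective e e.injective

theorem lf_order {A : Type} [Group A] (h : LocFin A) (x : A) : IsOfFinOrder x := by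
  classical
  have h1 : Finite (Subgroup.closure (({x} : Finset A) : Set A)) := h _ ⟨_, rfl⟩
  have h2 : x ∈ Subgroup.closure (({x} : Finset A) : Set A) := Subgroup.subset_closure (by simp)
  obtain ⟨n, hn, h3⟩ := isOfFinOrder_iff_pow_eq_one.1
    (isOfFinOrder_of_finite (⟨x, h2⟩ : Subgroup.closure (({x} : Finset A) : Set A)))
  exact isOfFinOrder_iff_pow_eq_one.2 ⟨n, hn, congrArg Subtype.val h3⟩

theorem gnt_of {C W : (G : Type) → [Group G] → Prop} (hC : Inherits C) (hE : Extension C) (hT : Transfer C) (hW : Cls C W)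
    (P : (G : Type) → [Group G] → Prop)
    (hPs : ∀ (A B : Type) [Group A] [Group B] (f : A →* B), Function.Surjective f → P A → P B)
    (hPf : ∀ (A : Type) [Group A], P A → ∀ D : Subgroup A, LocFin D → Finite D)
    (hgn : ∀ (G V : Type) [Group G] [MulAction G V] (X : SimpleGraph V), OnTree G X → (∀ v : V, W (MulAction.stabilizer G v)) →
      (∀ v w : V, X.Adj v w → P (MulAction.stabilizer G v ⊓ MulAction.stabilizer G w : Subgroup G)) → C G)
    {G V : Type} [Group G] [MulAction G V] {X : SimpleGraph V} (hX : OnTree G X)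
    (hv : ∀ v : V, WT W (MulAction.stabilizer G v))
    (he : ∀ v w : V, X.Adj v w → P (MulAction.stabilizer G v ⊓ MulAction.stabilizer G w : Subgroup G)) : C G := by
  classical
  choose F hFn hFl hFW using hv
  have hF : ∀ (v : V) (c : MulAction.stabilizer G v), c ∈ F v ↔ IsOfFinOrder c := by
    intro v c
    constructor
    · intro hc
      obtain ⟨n, hn, h1⟩ := isOfFinOrder_iff_pow_eq_one.1 (lf_order (hFl v) ⟨c, hc⟩)
      exact isOfFinOrder_iff_pow_eq_one.2 ⟨n, hn, congrArg Subtype.val h1⟩
    · intro hc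
      obtain ⟨n, hn, h1⟩ := isOfFinOrder_iff_pow_eq_one.1 hc
      have h2 : ((c : MulAction.stabilizer G v ⧸ F v)) ^ n = 1 := by
        rw [← QuotientGroup.mk_pow, h1]
        rfl
      exact (QuotientGroup.eq_one_iff c).1 (hW.tf _ (hFW v) _ n hn.ne' h2)
  let I : V → Subgroup G := fun v => (F v).map (MulAction.stabilizer G v).subtype
  have hI : ∀ (v : V) (g : G), g ∈ I v ↔ g • v = v ∧ IsOfFinOrder g := by
    intro v g
    constructor
    · rintro ⟨c, hc, rfl⟩
      refine ⟨c.2, ?_⟩
      obtain ⟨n, hn, h1⟩ := isOfFinOrder_iff_pow_eq_one.1 ((hF v c).1 hc)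
      exact isOfFinOrder_iff_pow_eq_one.2 ⟨n, hn, congrArg Subtype.val h1⟩
    · rintro ⟨h1, h2⟩
      refine ⟨⟨g, h1⟩, (hF v _).2 ?_, rfl⟩
      obtain ⟨n, hn, h3⟩ := isOfFinOrder_iff_pow_eq_one.1 h2
      exact isOfFinOrder_iff_pow_eq_one.2 ⟨n, hn, Subtype.ext h3⟩
  have hSat : Sat X I := by
    refine ⟨fun x c hc => ((hI x c).1 hc).1, ?_, ?_⟩
    · intro g x c hc
      obtain ⟨h1, h2⟩ := (hI x c).1 hc
      refine (hI _ _).2 ⟨?_, ?_⟩
      · rw [mul_smul, mul_smul, inv_smul_smul, h1]
      · obtain ⟨n, hn, h3⟩ := isOfFinOrder_iff_pow_eq_one.1 h2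
        exact isOfFinOrder_iff_pow_eq_one.2 ⟨n, hn, by rw [conj_pow, h3, mul_one, mul_inv_cancel]⟩
    · intro x y _ c hc hcy
      exact (hI _ _).2 ⟨hcy, ((hI x c).1 hc).2⟩
  obtain ⟨n, hn⟩ := exists_lift hX hSat
  have hN : (NN I).Normal := NN_normal hSat
  refine fin_ext hC hE hT hX ?_ (Z := G ⧸ NN I) ?_ (QuotientGroup.mk' (NN I)) (QuotientGroup.mk'_surjective _) ?_
  · intro v
    have := hFn v
    refine lf_ext hC hE (QuotientGroup.mk' (F v)) (hW.mem _ (hFW v)) ?_
    rw [QuotientGroup.ker_mk']
    exact hFl v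
  · refine hgn _ _ (qg X (NN I)) (quot_tree hX hSat hn) ?_ ?_
    · intro a
      obtain ⟨x, rfl⟩ := orb_surj (NN I) a
      have := hFn x
      obtain ⟨φ, hφs, hφk⟩ := vert hX hSat hn x
      have hker : φ.ker = F x := by
        ext c
        rw [MonoidHom.mem_ker, hφk c]
        constructor
        · rintro ⟨c', hc', h1⟩
          have h2 : c' = c := Subtype.ext h1
          rwa [← h2]
        · intro hc
          exact ⟨c, hc, rfl⟩
      let e1 := QuotientGroup.quotientKerEquivOfSurjective φ hφs
      let e2 := QuotientGroup.quotientMulEquivOfEq hker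
      exact hW.inj _ _ (e1.symm.trans e2).toMonoidHom (e1.symm.trans e2).injective (hFW x)
    · intro a b hab
      obtain ⟨x, y, hxy, φ, hφs, -⟩ := edge hX hSat hn a b hab
      exact hPs _ _ φ hφs (he x y hxy)
  · intro v w hvw
    rw [QuotientGroup.ker_mk']
    have hfix : ∀ g : G, g ∈ (NN I ⊓ (MulAction.stabilizer G v ⊓ MulAction.stabilizer G w) : Subgroup G) →
        g • v = v ∧ IsOfFinOrder g := by
      rintro g ⟨h1, h2, _⟩
      exact (hI v g).1 (inter hX hSat hn g h1 v h2)
    let D : Subgroup (MulAction.stabilizer G v ⊓ MulAction.stabilizer G w : Subgroup G) :=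
      (NN I).subgroupOf (MulAction.stabilizer G v ⊓ MulAction.stabilizer G w)
    have hD : Finite D := by
      refine hPf _ (he v w hvw) D ?_
      let φ : D →* F v :=
        { toFun := fun g => ⟨⟨(g.1 : G), g.1.2.1⟩, (hF v _).2 (by
            obtain ⟨n, hn, h3⟩ := isOfFinOrder_iff_pow_eq_one.1 (hfix (g.1 : G) ⟨g.2, g.1.2⟩).2
            exact isOfFinOrder_iff_pow_eq_one.2 ⟨n, hn, Subtype.ext h3⟩)⟩
          map_one' := rfl
          map_mul' := fun _ _ => rfl }
      refine lf_inj φ ?_ (hFl v)
      intro x y hxy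
      have h1 : (x.1 : G) = (y.1 : G) := congrArg (fun t : F v => ((t : MulAction.stabilizer G v) : G)) hxy
      exact Subtype.ext (Subtype.ext h1)
    refine Finite.of_injective (fun k : (NN I ⊓ (MulAction.stabilizer G v ⊓ MulAction.stabilizer G w) : Subgroup G) =>
      (⟨⟨k.1, k.2.2⟩, k.2.1⟩ : D)) ?_
    intro x y hxy
    exact Subtype.ext (congrArg (fun t : D => (t.1 : G)) hxy)

end Pool.Agent.H18.TN
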